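import Pool.Agent.H43.G.R_seed8.H469R2.NK.ExpSum
import Pool.Agent.H43.G.R_seed8.H300R2.FB.Defs

/-!
F4: van der Corput with iterated Weyl differencing for a general phase
(adapted from `Pool/Agent/H442R2/EHI/VdC.lean`).
-/

set_option linter.unusedVariables false

namespace Pool.Agent.H221R2.FB

open Finset
open Pool.Agent.H469R2.NK (e norm_e e_add conj_e vdcH kusmin_landau_anti
  norm_sum_neg Av Av_le Cq Cq_pos iterate harm_le)

/-- hypotheses on the phase -/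
structure Hyp (T : ℕ) (N c0 C0 : ℝ) (φ : ℕ → ℝ → ℝ) : Prop where
  der : ∀ m ≤ T, ∀ t ∈ Set.Icc N (3 * N), HasDerivAt (φ m) (φ (m + 1) t) t
  bd : ∀ m, 1 ≤ m → m ≤ T → ∀ t ∈ Set.Icc N (3 * N),
    c0 ≤ (-1) ^ (m + 1) * φ m t * N ^ m ∧ (-1) ^ (m + 1) * φ m t * N ^ m ≤ C0

/-- iterated differences of the derivatives of the phase -/
noncomputable def EG (φ : ℕ → ℝ → ℝ) : List ℕ → ℕ → ℝ → ℝ
  | [], m, x => φ m x
  | l :: ls, m, x => EG φ ls m (x + l) - EG φ ls m x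

section

variable {T : ℕ} {N c0 C0 : ℝ} {φ : ℕ → ℝ → ℝ}

lemma hasDerivAt_EG (h : Hyp T N c0 C0 φ) (ls : List ℕ) {m : ℕ} (hm : m ≤ T) {x : ℝ}
    (hx : N ≤ x) (hx2 : x + (ls.sum : ℕ) ≤ 3 * N) :
    HasDerivAt (EG φ ls m) (EG φ ls (m + 1) x) x := by
  induction ls generalizing x with
  | nil => exact h.der m hm x ⟨hx, by simpa using hx2⟩
  | cons l ls ih =>
    rw [List.sum_cons, Nat.cast_add] at hx2
    have hl : (0 : ℝ) ≤ l := Nat.cast_nonneg l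
    have h1 : HasDerivAt (fun y => EG φ ls m (y + l)) (EG φ ls (m + 1) (x + l)) x := by
      have := ih (x := x + l) (by linarith) (by linarith)
      exact this.comp_add_const x (l : ℝ)
    exact h1.sub (ih hx (by linarith))

/-- size of the iterated differences -/
lemma EG_bounds (hN : 0 < N) (h : Hyp T N c0 C0 φ) (ls : List ℕ) : ∀ (m : ℕ) (x : ℝ),
    1 ≤ m + ls.length → m + ls.length ≤ T → N ≤ x → x + (ls.sum : ℕ) ≤ 3 * N →
    c0 / N ^ (m + ls.length) * (ls.prod : ℕ) ≤ (-1) ^ (m + ls.length + 1) * EG φ ls m x ∧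
      (-1) ^ (m + ls.length + 1) * EG φ ls m x ≤ C0 / N ^ (m + ls.length) * (ls.prod : ℕ) := by
  induction ls with
  | nil =>
    intro m x h1 h2 hx hx2
    simp only [List.length_nil, add_zero, List.prod_nil, Nat.cast_one, mul_one, EG,
      List.sum_nil, Nat.cast_zero] at *
    have h3 := h.bd m h1 h2 x ⟨hx, hx2⟩
    have hNm : 0 < N ^ m := by positivity
    rw [div_le_iff₀ hNm, le_div_iff₀ hNm]
    exact h3
  | cons l ls ih =>
    intro m x h1 h2 hx hx2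
    simp only [List.length_cons, List.prod_cons, List.sum_cons] at *
    rw [Nat.cast_add] at hx2
    rw [Nat.cast_mul]
    rcases Nat.eq_zero_or_pos l with rfl | hl
    · simp [EG]
    have hl' : (0 : ℝ) < l := by exact_mod_cast hl
    obtain ⟨ξ, hξ, hξ2⟩ := exists_hasDerivAt_eq_slope (EG φ ls m) (EG φ ls (m + 1)) (a := x)
      (b := x + l) (by linarith)
      (fun y hy => (hasDerivAt_EG h ls (by omega) (by linarith [hy.1])
        (by linarith [hy.2])).continuousAt.continuousWithinAt)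
      (fun y hy => hasDerivAt_EG h ls (by omega) (by linarith [hy.1]) (by linarith [hy.2]))
    have h3 : EG φ (l :: ls) m x = l * EG φ ls (m + 1) ξ := by
      simp only [EG]
      rw [hξ2, add_sub_cancel_left]; field_simp
    have h4 := ih (m + 1) ξ (by omega) (by omega) (by linarith [hξ.1]) (by linarith [hξ.2])
    rw [show m + 1 + ls.length = m + (ls.length + 1) by ring] at h4
    rw [h3]
    have e1 : (-1 : ℝ) ^ (m + (ls.length + 1) + 1) * (l * EG φ ls (m + 1) ξ) =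
      l * ((-1 : ℝ) ^ (m + (ls.length + 1) + 1) * EG φ ls (m + 1) ξ) := by ring
    rw [e1]
    constructor
    · calc _ = (l : ℝ) * (c0 / N ^ (m + (ls.length + 1)) * (ls.prod : ℕ)) := by ring
        _ ≤ _ := mul_le_mul_of_nonneg_left h4.1 hl'.le
    · calc _ ≤ (l : ℝ) * (C0 / N ^ (m + (ls.length + 1)) * (ls.prod : ℕ)) :=
            mul_le_mul_of_nonneg_left h4.2 hl'.le
        _ = _ := by ring

end

/-- the differenced sum -/
noncomputable def SG (φ : ℕ → ℝ → ℝ) (Z : ℝ) (u : ℝ) (L : ℕ) (ls : List ℕ) : ℂ :=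
  ∑ n ∈ range (L - ls.sum), e (Z * EG φ ls 0 (u + n))

lemma SG_sq (φ : ℕ → ℝ → ℝ) (Z : ℝ) (u : ℝ) (L H : ℕ) (ls : List ℕ) :
    (H : ℝ) * ‖SG φ Z u L ls‖ ^ 2 ≤
      (L + H) * (L + 2 * ∑ l ∈ Ico 1 H, ‖SG φ Z u L (l :: ls)‖) := by
  have h := vdcH (fun n => e (Z * EG φ ls 0 (u + (n : ℝ)))) (fun n => (norm_e _).le) (L - ls.sum) H
  have h1 : ∀ l, ∑ n ∈ range (L - ls.sum - l), e (Z * EG φ ls 0 (u + ((n + l : ℕ) : ℝ))) *
      (starRingEnd ℂ) (e (Z * EG φ ls 0 (u + (n : ℝ)))) = SG φ Z u L (l :: ls) := by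
    intro l
    unfold SG
    rw [List.sum_cons, show L - (l + ls.sum) = L - ls.sum - l by omega]
    refine sum_congr rfl fun n _ => ?_
    rw [conj_e, ← e_add]
    congr 1
    simp only [EG]
    push_cast
    rw [show u + n + l = u + (n + l) by ring]
    ring
  simp only [h1] at h
  refine h.trans ?_
  have h2 : ((L - ls.sum : ℕ) : ℝ) ≤ L := by exact_mod_cast Nat.sub_le _ _
  gcongr

/-- last step: Kusmin–Landau -/
lemma SG_le {T : ℕ} {c0 C0 : ℝ} {φ : ℕ → ℝ → ℝ} (hc0 : 0 < c0) (Z : ℝ) (hZ : 0 < Z) (N : ℕ)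
    (h : Hyp T N c0 C0 φ) (u : ℝ) (L : ℕ) (hN : 1 ≤ N) (hu : (N : ℝ) ≤ u)
    (huL : u + L ≤ 3 * N) (ls : List ℕ) (hls : 0 < ls.prod) (hT : ls.length + 2 ≤ T)
    (hup : 2 * (Z * (C0 / (N : ℝ) ^ (ls.length + 1) * (ls.prod : ℕ))) ≤ 1) :
    ‖SG φ Z u L ls‖ ≤ 2 * (N : ℝ) ^ (ls.length + 1) / (Z * c0 * (ls.prod : ℕ)) := by
  have hN' : (0 : ℝ) < N := by exact_mod_cast hN
  have hP : (0 : ℝ) < (ls.prod : ℕ) := by exact_mod_cast hls
  rcases Nat.lt_or_ge L (ls.sum + 1) with hL | hL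
  · unfold SG
    rw [show L - ls.sum = 0 by omega]
    simp only [range_zero, sum_empty, norm_zero]
    positivity
  set θ : ℝ := Z * (c0 / (N : ℝ) ^ (ls.length + 1) * (ls.prod : ℕ)) with hθ
  have hθ0 : 0 < θ := by positivity
  set σ : ℝ := (-1) ^ (ls.length) with hσ
  have hσ1 : σ = 1 ∨ σ = -1 := neg_one_pow_eq_or ℝ _
  have hx1 : ∀ n < L - ls.sum, θ ≤ σ * (Z * EG φ (1 :: ls) 0 (u + (n : ℝ))) ∧
      σ * (Z * EG φ (1 :: ls) 0 (u + (n : ℝ))) ≤ 1 / 2 := by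
    intro n hn
    have hxN : (N : ℝ) ≤ u + (n : ℝ) := by
      have : (0 : ℝ) ≤ n := Nat.cast_nonneg n
      linarith
    have h2 := EG_bounds hN' h (1 :: ls) 0 (u + (n : ℝ)) (by simp)
      (by rw [List.length_cons]; omega) hxN (by
      rw [List.sum_cons]
      have h3 : n + (1 + ls.sum) ≤ L := by omega
      have h4 : ((n + (1 + ls.sum) : ℕ) : ℝ) ≤ L := by exact_mod_cast h3
      push_cast at h4 ⊢
      linarith)
    simp only [List.prod_cons, one_mul, List.length_cons, zero_add] at h2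
    have e1 : σ * (Z * EG φ (1 :: ls) 0 (u + (n : ℝ))) =
      Z * ((-1) ^ (ls.length + 1 + 1) * EG φ (1 :: ls) 0 (u + (n : ℝ))) := by
      rw [hσ, pow_succ, pow_succ]; ring
    rw [e1]
    constructor
    · exact mul_le_mul_of_nonneg_left h2.1 hZ.le
    · have h3 := mul_le_mul_of_nonneg_left h2.2 hZ.le
      linarith
  have hθ2 : θ ≤ 1 / 2 := (hx1 0 (by omega)).1.trans (hx1 0 (by omega)).2
  have hdiff : ∀ n : ℕ, σ * (Z * EG φ ls 0 (u + ((n + 1 : ℕ) : ℝ))) -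
      σ * (Z * EG φ ls 0 (u + (n : ℝ))) = σ * (Z * EG φ (1 :: ls) 0 (u + (n : ℝ))) := by
    intro n
    simp only [EG]
    push_cast
    rw [show u + n + 1 = u + (n + 1) by ring]
    ring
  have hdiff2 : ∀ n, n + 1 < L - ls.sum → σ * (Z * EG φ (1 :: ls) 0 (u + ((n + 1 : ℕ) : ℝ))) ≤
      σ * (Z * EG φ (1 :: ls) 0 (u + (n : ℝ))) := by
    intro n hn
    have hxN : (N : ℝ) ≤ u + (n : ℝ) := by
      have : (0 : ℝ) ≤ n := Nat.cast_nonneg n
      linarith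
    have h2 := EG_bounds hN' h (1 :: 1 :: ls) 0 (u + (n : ℝ)) (by simp)
      (by rw [List.length_cons, List.length_cons]; omega) hxN (by
      rw [List.sum_cons, List.sum_cons]
      have h3 : n + (1 + (1 + ls.sum)) ≤ L := by omega
      have h4 : ((n + (1 + (1 + ls.sum)) : ℕ) : ℝ) ≤ L := by exact_mod_cast h3
      push_cast at h4 ⊢
      linarith)
    simp only [List.length_cons, List.prod_cons, one_mul, zero_add] at h2
    have h0 := h2.1
    have h1 : (0 : ℝ) ≤ (-1) ^ (ls.length + 1 + 1 + 1) * EG φ (1 :: 1 :: ls) 0 (u + (n : ℝ)) :=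
      le_trans (by positivity) h0
    have h2 : EG φ (1 :: 1 :: ls) 0 (u + (n : ℝ)) =
        EG φ (1 :: ls) 0 (u + ((n + 1 : ℕ) : ℝ)) - EG φ (1 :: ls) 0 (u + (n : ℝ)) := by
      conv_lhs => rw [EG]
      push_cast
      rw [show u + n + 1 = u + (n + 1) by ring]
    rw [h2, pow_succ, pow_succ, pow_succ] at h1
    have h3 := mul_nonneg hZ.le h1
    have e3 : Z * ((-1) ^ (ls.length) * -1 * -1 * -1 *
        (EG φ (1 :: ls) 0 (u + ((n + 1 : ℕ) : ℝ)) - EG φ (1 :: ls) 0 (u + (n : ℝ)))) =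
      σ * (Z * EG φ (1 :: ls) 0 (u + (n : ℝ))) -
        σ * (Z * EG φ (1 :: ls) 0 (u + ((n + 1 : ℕ) : ℝ))) := by
      rw [hσ]; ring
    rw [e3] at h3
    linarith
  have hKL := kusmin_landau_anti (fun n => σ * (Z * EG φ ls 0 (u + (n : ℝ)))) (L - ls.sum) hθ0
    (fun n hn => by rw [hdiff]; exact (hx1 n hn).1)
    (fun n hn => by rw [hdiff]; linarith [(hx1 n hn).2])
    (fun n hn => by
      have e1 := hdiff n
      have e2 := hdiff (n + 1)
      rw [show n + 1 + 1 = n + 2 by ring] at e2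
      have e3 := hdiff2 n hn
      linarith)
  have hnorm : ‖SG φ Z u L ls‖ =
      ‖∑ n ∈ range (L - ls.sum), e (σ * (Z * EG φ ls 0 (u + (n : ℝ))))‖ := by
    unfold SG
    rcases hσ1 with h | h
    · rw [h]; simp
    · rw [h, ← norm_sum_neg]
      congr 1
      refine sum_congr rfl fun n _ => ?_
      congr 1; ring
  rw [hnorm]
  refine hKL.trans (le_of_eq ?_)
  rw [hθ]
  field_simp

lemma exp_boundG {T : ℕ} {c0 C0 : ℝ} {φ : ℕ → ℝ → ℝ} (hc0 : 0 < c0) (hC0 : 0 ≤ C0) (q : ℕ)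
    (hT : q + 2 ≤ T) (Z : ℝ) (hZ : 0 < Z) (N : ℕ) (h : Hyp T N c0 C0 φ) (u : ℝ) (L H : ℕ)
    (hN : 1 ≤ N) (hu : (N : ℝ) ≤ u) (hL : L ≤ N) (huL : u + L ≤ 3 * N) (hH : 1 ≤ H) (hHN : H ≤ N)
    (hup : 2 * (Z * (C0 / (N : ℝ) ^ (q + 1) * (H : ℝ) ^ q)) ≤ 1) :
    (‖SG φ Z u L []‖ / N) ^ (2 ^ q) ≤ Cq q * (1 / H +
      (2 * (N : ℝ) ^ (q + 1) / (Z * c0) / N) * ((∑ l ∈ Ico 1 H, (1 : ℝ) / l) / H) ^ q) := by
  have hN' : (1 : ℝ) ≤ N := by exact_mod_cast hN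
  have hH' : (1 : ℝ) ≤ H := by exact_mod_cast hH
  have hL' : (L : ℝ) ≤ N := by exact_mod_cast hL
  have hHN' : (H : ℝ) ≤ N := by exact_mod_cast hHN
  have hstep : ∀ ls : List ℕ, (‖SG φ Z u L ls‖ / N) ^ 2 ≤
      2 / H + 4 * ((∑ l ∈ Ico 1 H, ‖SG φ Z u L (l :: ls)‖ / N) / H) := by
    intro ls
    have h := SG_sq φ Z u L H ls
    set Sg := ∑ l ∈ Ico 1 H, ‖SG φ Z u L (l :: ls)‖ with hSg
    have hSg0 : 0 ≤ Sg := sum_nonneg fun _ _ => norm_nonneg _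
    have h2 : (H : ℝ) * ‖SG φ Z u L ls‖ ^ 2 ≤ (2 * N) * (N + 2 * Sg) := by
      refine h.trans ?_
      have : (L : ℝ) + H ≤ 2 * N := by linarith
      gcongr
    rw [← sum_div, ← hSg]
    have e1 : 2 / (H : ℝ) + 4 * (Sg / N / H) = ((2 * N) * (N + 2 * Sg)) / (H * N ^ 2) := by
      field_simp
      ring
    rw [e1, div_pow, div_le_div_iff₀ (by positivity) (by positivity)]
    calc ‖SG φ Z u L ls‖ ^ 2 * (H * N ^ 2) = ((H : ℝ) * ‖SG φ Z u L ls‖ ^ 2) * N ^ 2 := by ring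
      _ ≤ _ := by gcongr
  have hit := iterate hH (fun ls => ‖SG φ Z u L ls‖ / N) (fun ls => by positivity) hstep q []
  refine hit.trans ?_
  have hC := Cq_pos q
  gcongr
  have := Av_le (H := H) (T := fun ls => ‖SG φ Z u L ls‖ / N)
    (κ := 2 * (N : ℝ) ^ (q + 1) / (Z * c0) / N) q (by
      intro ls hlen hent
      have hpos : 0 < ls.prod := List.prod_pos fun l hl => (hent l hl).1
      have hle : ls.prod ≤ H ^ q := by
        have := List.prod_le_pow_card ls H (fun l hl => (hent l hl).2.le)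
        rwa [hlen] at this
      have hle' : ((ls.prod : ℕ) : ℝ) ≤ (H : ℝ) ^ q := by exact_mod_cast hle
      have h1 := SG_le hc0 Z hZ N h u L hN hu huL ls hpos (by rw [hlen]; exact hT) (by
        rw [hlen]
        refine le_trans ?_ hup
        gcongr)
      rw [hlen] at h1
      have hP : (0 : ℝ) < (ls.prod : ℕ) := by exact_mod_cast hpos
      calc ‖SG φ Z u L ls‖ / N ≤ (2 * (N : ℝ) ^ (q + 1) / (Z * c0 * (ls.prod : ℕ))) / N := by
            gcongr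
        _ = _ := by field_simp) q [] (by simp) (by simp)
  simpa using this

lemma alg_aux2 (Z N W Y G X B c : ℝ) (hZ : Z ≠ 0) (hN : N ≠ 0) (hc : c ≠ 0) (hW : W ≠ 0) :
    2 * (Y * N) / (Z * c) / N * (G * X * B / W) = (2 / c) * B * G * (X * Y / (Z * W)) := by
  field_simp

/-- positive frequencies -/
theorem exp_sum_boundG (Q : ℕ) (hQ : 1 ≤ Q) (c0 C0 : ℝ) (hc0 : 0 < c0) (hC0 : 1 ≤ C0) :
    ∃ η : ℝ, 0 < η ∧ η ≤ 1 ∧ ∃ C : ℝ, 0 < C ∧ ∀ (N L : ℕ) (u Z : ℝ) (φ : ℕ → ℝ → ℝ), 1 ≤ N →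
      (N : ℝ) ≤ u → L ≤ N → u + L ≤ 3 * N → Hyp (Q + 2) N c0 C0 φ → 1 ≤ Z → Z ≤ (N : ℝ) ^ Q →
      ‖∑ n ∈ range L, e (Z * φ 0 (u + n))‖ ≤ C * ((N : ℝ) ^ (1 - η) + N / Z) := by
  set η : ℝ := 1 / (4 * Q * 2 ^ Q) with hη
  have hQ' : (1 : ℝ) ≤ Q := by exact_mod_cast hQ
  have h2Q : (1 : ℝ) ≤ 2 ^ Q := one_le_pow₀ (by norm_num)
  have hη0 : 0 < η := by rw [hη]; positivity
  have hη1 : η ≤ 1 / 4 := by
    rw [hη, div_le_div_iff₀ (by positivity) (by norm_num)]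
    nlinarith
  set N0 : ℝ := max 16 ((2 * C0) ^ 4) with hN0
  set K : ℝ := Cq Q * (2 + (2 / c0) * 2 ^ Q * (1 + 4 * Q) ^ Q) with hK
  have hCq := Cq_pos Q
  have hK0 : 0 < K := by rw [hK]; positivity
  set C : ℝ := max (max (2 / c0) N0) (K ^ ((1 : ℝ) / 2 ^ Q)) with hC
  refine ⟨η, hη0, by linarith, C, by rw [hC]; positivity, ?_⟩
  intro N L u Z φ hN ha hL haL h hZ1 hZ2
  have hN' : (1 : ℝ) ≤ N := by exact_mod_cast hN
  have hNpos : (0 : ℝ) < N := by linarith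
  have hC6 : 2 / c0 ≤ C := (le_max_left _ _).trans (le_max_left _ _)
  have hCN0 : N0 ≤ C := (le_max_right _ _).trans (le_max_left _ _)
  have hCK : K ^ ((1 : ℝ) / 2 ^ Q) ≤ C := le_max_right _ _
  have hCpos : 0 < C := lt_of_lt_of_le (by positivity) hC6
  have hZ : 0 < Z := by linarith
  have hSS : ∑ n ∈ range L, e (Z * φ 0 (u + n)) = SG φ Z u L [] := by
    unfold SG
    simp only [List.sum_nil, Nat.sub_zero]
    rfl
  rw [hSS]
  have htriv : ‖SG φ Z u L []‖ ≤ N := by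
    unfold SG
    refine (norm_sum_le _ _).trans ?_
    simp only [norm_e, sum_const, card_range, nsmul_eq_mul, mul_one, List.sum_nil, Nat.sub_zero]
    exact_mod_cast hL
  have hp1 : 0 ≤ C * (N / Z) := by positivity
  have hp2 : 0 ≤ C * (N : ℝ) ^ (1 - η) := by positivity
  rcases lt_or_ge (N : ℝ) N0 with hsmall | hbig
  · refine htriv.trans ?_
    calc (N : ℝ) ≤ N0 * 1 := by linarith
      _ ≤ C * (N : ℝ) ^ (1 - η) := by
        gcongr
        exact Real.one_le_rpow hN' (by linarith)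
      _ ≤ _ := by rw [mul_add]; linarith
  have h16 : (16 : ℝ) ≤ N := (le_max_left _ _).trans hbig
  have hfac : (2 * C0) ^ 4 ≤ (N : ℝ) := (le_max_right _ _).trans hbig
  have hfac4 : 2 * C0 ≤ (N : ℝ) ^ (1 / 4 : ℝ) := by
    have h1 : ((2 * C0) ^ (4 : ℕ)) ^ (1 / 4 : ℝ) ≤ (N : ℝ) ^ (1 / 4 : ℝ) := by gcongr
    rw [← Real.rpow_natCast, ← Real.rpow_mul (by positivity)] at h1
    norm_num at h1
    norm_num
    exact h1
  rcases le_or_gt Z ((N : ℝ) ^ (3 / 4 : ℝ)) with hcase | hcase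
  · -- direct Kusmin–Landau
    have h1 := SG_le hc0 Z hZ N h u L hN ha haL [] (by simp) (by simp) (by
      simp only [List.length_nil, zero_add, List.prod_nil, Nat.cast_one, mul_one, pow_one]
      have e2 : (N : ℝ) ^ (3 / 4 : ℝ) * (N : ℝ) ^ (1 / 4 : ℝ) = (N : ℝ) := by
        rw [← Real.rpow_add hNpos]; norm_num
      rw [← mul_div_assoc, ← mul_div_assoc, div_le_one (by positivity)]
      calc 2 * (Z * C0) = Z * (2 * C0) := by ring
        _ ≤ (N : ℝ) ^ (3 / 4 : ℝ) * (N : ℝ) ^ (1 / 4 : ℝ) := by gcongr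
        _ = N := e2)
    simp only [List.length_nil, zero_add, List.prod_nil, Nat.cast_one, mul_one, pow_one] at h1
    refine h1.trans ?_
    have e3 : 2 * (N : ℝ) / (Z * c0) = (2 / c0) * (N / Z) := by field_simp
    rw [e3, mul_add]
    have e4 : (2 / c0) * (N / Z) ≤ C * (N / Z) := by gcongr
    linarith
  · -- Weyl - van der Corput
    set hh : ℝ := ((N : ℝ) ^ (Q + 1 / 2 : ℝ) / Z) ^ ((1 : ℝ) / Q) with hhd
    have hhQ : hh ^ Q = (N : ℝ) ^ (Q + 1 / 2 : ℝ) / Z := by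
      rw [hhd, ← Real.rpow_natCast, ← Real.rpow_mul (by positivity),
        one_div_mul_cancel (by positivity), Real.rpow_one]
    have hh0 : 0 ≤ hh := by rw [hhd]; positivity
    have hlow : (N : ℝ) ^ (1 / 2 : ℝ) ≤ hh ^ Q := by
      rw [hhQ, le_div_iff₀ hZ]
      calc (N : ℝ) ^ (1 / 2 : ℝ) * Z ≤ (N : ℝ) ^ (1 / 2 : ℝ) * (N : ℝ) ^ Q := by gcongr
        _ = _ := by
          rw [← Real.rpow_natCast, ← Real.rpow_add hNpos]
          congr 1; ring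
    have hupp : hh ^ Q ≤ (N : ℝ) ^ Q := by
      rw [hhQ, div_le_iff₀ hZ]
      calc (N : ℝ) ^ (Q + 1 / 2 : ℝ) ≤ (N : ℝ) ^ (Q + 3 / 4 : ℝ) := by
            apply Real.rpow_le_rpow_of_exponent_le hN'; linarith
        _ = (N : ℝ) ^ Q * (N : ℝ) ^ (3 / 4 : ℝ) := by
            rw [Real.rpow_add hNpos, Real.rpow_natCast]
        _ ≤ _ := by gcongr
    have hhN : hh ≤ N := le_of_pow_le_pow_left₀ (by omega) (by positivity) hupp
    have hN12 : (1 : ℝ) ≤ (N : ℝ) ^ (1 / 2 : ℝ) := Real.one_le_rpow hN' (by norm_num)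
    have hh1 : 1 ≤ hh := by
      by_contra hlt
      rw [not_le] at hlt
      have : hh ^ Q ≤ 1 := pow_le_one₀ hh0 hlt.le
      have h4 : (4 : ℝ) ≤ (N : ℝ) ^ (1 / 2 : ℝ) := by
        calc (4 : ℝ) = (16 : ℝ) ^ (1 / 2 : ℝ) := by
              rw [show (16 : ℝ) = 4 ^ (2 : ℝ) by norm_num, ← Real.rpow_mul (by norm_num)]; norm_num
          _ ≤ _ := by gcongr
      linarith
    set H : ℕ := ⌊hh⌋₊ with hH
    have hH1 : 1 ≤ H := Nat.one_le_floor_iff _ |>.mpr hh1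
    have hHle : (H : ℝ) ≤ hh := Nat.floor_le hh0
    have hHN : H ≤ N := by exact_mod_cast hHle.trans hhN
    have hHge : hh / 2 ≤ H := by
      have h1 : hh < H + 1 := Nat.lt_floor_add_one hh
      have h2 : (1 : ℝ) ≤ H := by exact_mod_cast hH1
      linarith
    have hH1' : (1 : ℝ) ≤ H := by exact_mod_cast hH1
    have hsq : 2 * C0 ≤ (N : ℝ) ^ (1 / 2 : ℝ) := by
      refine hfac4.trans ?_
      apply Real.rpow_le_rpow_of_exponent_le hN'
      norm_num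
    have hZh : Z * hh ^ Q = (N : ℝ) ^ (Q + 1 / 2 : ℝ) := by rw [hhQ]; field_simp
    have hcond : 2 * (Z * (C0 / (N : ℝ) ^ (Q + 1) * (H : ℝ) ^ Q)) ≤ 1 := by
      have e1 : (N : ℝ) ^ (Q + 1) = (N : ℝ) ^ (Q + 1 / 2 : ℝ) * (N : ℝ) ^ (1 / 2 : ℝ) := by
        rw [← Real.rpow_add hNpos, ← Real.rpow_natCast]; congr 1; push_cast; ring
      have e2 : 2 * (Z * (C0 / (N : ℝ) ^ (Q + 1) * (H : ℝ) ^ Q)) =
          (2 * C0) * (Z * (H : ℝ) ^ Q) / (N : ℝ) ^ (Q + 1) := by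
        ring
      rw [e2, div_le_one (by positivity), e1, ← hZh]
      calc (2 * C0) * (Z * (H : ℝ) ^ Q) ≤ (N : ℝ) ^ (1 / 2 : ℝ) * (Z * hh ^ Q) := by gcongr
        _ = _ := by ring
    have hb := exp_boundG hc0 (by linarith) Q le_rfl Z hZ N h u L H hN ha hL haL hH1 hHN hcond
    -- first term
    have hhlow : (N : ℝ) ^ ((1 : ℝ) / (2 * Q)) ≤ hh := by
      have : ((N : ℝ) ^ ((1 : ℝ) / (2 * Q))) ^ Q ≤ hh ^ Q := by
        rw [← Real.rpow_natCast, ← Real.rpow_mul (by positivity)]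
        refine le_trans (le_of_eq ?_) hlow
        congr 1; field_simp
      exact le_of_pow_le_pow_left₀ (by omega) hh0 this
    have hQpos : (0 : ℝ) < Q := by linarith
    have hterm1 : 1 / (H : ℝ) ≤ 2 * (N : ℝ) ^ (-(1 : ℝ) / (4 * Q)) := by
      have h1 : (0 : ℝ) < (N : ℝ) ^ ((1 : ℝ) / (4 * Q)) := by positivity
      have h2 : (N : ℝ) ^ ((1 : ℝ) / (4 * Q)) ≤ (N : ℝ) ^ ((1 : ℝ) / (2 * Q)) := by
        apply Real.rpow_le_rpow_of_exponent_le hN'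
        gcongr; norm_num
      rw [neg_div, Real.rpow_neg (by positivity), ← div_eq_mul_inv,
        div_le_div_iff₀ (by positivity) h1]
      linarith
    have hlog : 1 + Real.log H ≤ (1 + 4 * Q) * (N : ℝ) ^ ((1 : ℝ) / (4 * Q)) := by
      have h1 : Real.log H ≤ Real.log N := Real.log_le_log (by positivity) (by exact_mod_cast hHN)
      have h2 := Real.log_le_rpow_div (x := N) (ε := (1 : ℝ) / (4 * Q)) (by positivity)
        (by positivity)
      have h3 : (N : ℝ) ^ ((1 : ℝ) / (4 * Q)) / ((1 : ℝ) / (4 * Q)) =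
          4 * Q * (N : ℝ) ^ ((1 : ℝ) / (4 * Q)) := by
        field_simp
      have h4 : (1 : ℝ) ≤ (N : ℝ) ^ ((1 : ℝ) / (4 * Q)) := Real.one_le_rpow hN' (by positivity)
      rw [h3] at h2
      nlinarith
    have hterm2 : (2 * (N : ℝ) ^ (Q + 1) / (Z * c0) / N) *
          ((∑ l ∈ Ico 1 H, (1 : ℝ) / l) / H) ^ Q ≤
        (2 / c0) * 2 ^ Q * (1 + 4 * Q) ^ Q * (N : ℝ) ^ (-(1 : ℝ) / (4 * Q)) := by
      have hs0 : 0 ≤ ∑ l ∈ Ico 1 H, (1 : ℝ) / l := sum_nonneg fun _ _ => by positivity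
      have h1 : ((∑ l ∈ Ico 1 H, (1 : ℝ) / l) / H) ^ Q ≤
          (((1 + 4 * Q) * (N : ℝ) ^ ((1 : ℝ) / (4 * Q))) / (hh / 2)) ^ Q := by
        gcongr
        exact (harm_le H).trans hlog
      have h2 : (((1 + 4 * Q) * (N : ℝ) ^ ((1 : ℝ) / (4 * Q))) / (hh / 2)) ^ Q =
          (1 + 4 * Q) ^ Q * (N : ℝ) ^ ((1 : ℝ) / 4) * 2 ^ Q / hh ^ Q := by
        rw [div_pow, mul_pow, div_pow, div_div_eq_mul_div]
        congr 3
        rw [← Real.rpow_natCast, ← Real.rpow_mul (by positivity)]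
        congr 1; field_simp
      have h3 : (N : ℝ) ^ ((1 : ℝ) / 4) * (N : ℝ) ^ Q * (N : ℝ) ^ ((1 : ℝ) / (4 * Q)) ≤
          Z * hh ^ Q := by
        rw [hZh, ← Real.rpow_natCast, ← Real.rpow_add hNpos, ← Real.rpow_add hNpos]
        apply Real.rpow_le_rpow_of_exponent_le hN'
        have : (1 : ℝ) / (4 * Q) ≤ 1 / 4 := by
          rw [div_le_div_iff₀ (by positivity) (by norm_num)]; linarith
        linarith
      have hNQ : (0 : ℝ) < (N : ℝ) ^ ((1 : ℝ) / (4 * Q)) := by positivity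
      calc _ ≤ (2 * (N : ℝ) ^ (Q + 1) / (Z * c0) / N) *
            ((1 + 4 * Q) ^ Q * (N : ℝ) ^ ((1 : ℝ) / 4) * 2 ^ Q / hh ^ Q) := by
              rw [← h2]; gcongr
        _ = (2 / c0) * 2 ^ Q * (1 + 4 * Q) ^ Q *
            (((N : ℝ) ^ ((1 : ℝ) / 4) * (N : ℝ) ^ Q) / (Z * hh ^ Q)) := by
            rw [pow_succ (N : ℝ) Q]
            exact alg_aux2 _ _ _ _ _ _ _ _ hZ.ne' hNpos.ne' hc0.ne' (by positivity)
        _ ≤ _ := by
            gcongr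
            rw [neg_div, Real.rpow_neg (by positivity), ← one_div,
              div_le_div_iff₀ (by positivity) hNQ]
            linarith
    have hfin : (‖SG φ Z u L []‖ / N) ^ (2 ^ Q) ≤ K * (N : ℝ) ^ (-(1 : ℝ) / (4 * Q)) := by
      refine hb.trans ?_
      calc _ ≤ Cq Q * (2 * (N : ℝ) ^ (-(1 : ℝ) / (4 * Q)) +
            (2 / c0) * 2 ^ Q * (1 + 4 * Q) ^ Q * (N : ℝ) ^ (-(1 : ℝ) / (4 * Q))) := by
            gcongr
        _ = _ := by rw [hK]; ring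
    have hroot : ‖SG φ Z u L []‖ / N ≤ K ^ ((1 : ℝ) / 2 ^ Q) * (N : ℝ) ^ (-η) := by
      have h1 : (‖SG φ Z u L []‖ / N) =
          ((‖SG φ Z u L []‖ / N) ^ (2 ^ Q)) ^ ((1 : ℝ) / 2 ^ Q) := by
        rw [← Real.rpow_natCast, ← Real.rpow_mul (by positivity)]
        push_cast
        rw [mul_one_div_cancel (by positivity), Real.rpow_one]
      rw [h1]
      calc _ ≤ (K * (N : ℝ) ^ (-(1 : ℝ) / (4 * Q))) ^ ((1 : ℝ) / 2 ^ Q) := by gcongr
        _ = K ^ ((1 : ℝ) / 2 ^ Q) * (N : ℝ) ^ (-(1 : ℝ) / (4 * Q) * (1 / 2 ^ Q)) := by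
            rw [Real.mul_rpow hK0.le (by positivity), ← Real.rpow_mul (by positivity)]
        _ ≤ _ := by
            gcongr
            have : -(1 : ℝ) / (4 * Q) * (1 / 2 ^ Q) = -(1 / (4 * Q * 2 ^ Q)) := by
              field_simp
            rw [this, hη]
    rw [div_le_iff₀ hNpos] at hroot
    calc ‖SG φ Z u L []‖ ≤ K ^ ((1 : ℝ) / 2 ^ Q) * (N : ℝ) ^ (-η) * N := hroot
      _ ≤ C * (N : ℝ) ^ (-η) * N := by gcongr
      _ = C * (N : ℝ) ^ (1 - η) := by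
        rw [mul_assoc, sub_eq_neg_add, Real.rpow_add hNpos, Real.rpow_one]
      _ ≤ _ := by rw [mul_add]; linarith

/-- F4. General van der Corput estimate. -/
theorem vdc_gen (M : ℕ) (c0 C0 : ℝ) (hc0 : 0 < c0) : ∃ η : ℝ, 0 < η ∧ η ≤ 1 ∧ ∃ C : ℝ, 0 < C ∧
    ∀ (J L : ℕ) (u ξ : ℝ) (φ : ℕ → ℝ → ℝ), 1 ≤ J → (J : ℝ) ≤ u → L ≤ J → u + L ≤ 3 * J →
    (∀ m ≤ M + 4, ∀ t ∈ Set.Icc (J : ℝ) (3 * J), HasDerivAt (φ m) (φ (m + 1) t) t) →
    (∀ m, 1 ≤ m → m ≤ M + 4 → ∀ t ∈ Set.Icc (J : ℝ) (3 * J),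
      c0 ≤ (-1) ^ (m + 1) * φ m t * (J : ℝ) ^ m ∧ (-1) ^ (m + 1) * φ m t * (J : ℝ) ^ m ≤ C0) →
    1 ≤ |ξ| → |ξ| ≤ (J : ℝ) ^ M →
    ‖∑ n ∈ range L, e (ξ * φ 0 (u + n))‖ ≤ C * ((J : ℝ) ^ (1 - η) + J / |ξ|) := by
  obtain ⟨η, hη0, hη1, C, hC, hmain⟩ := exp_sum_boundG (M + 1) (by omega) c0 (max C0 1) hc0
    (le_max_right _ _)
  refine ⟨η, hη0, hη1, C, hC, ?_⟩
  intro J L u ξ φ hJ hu hL huL hder hbd h1 h2
  have hJ' : (1 : ℝ) ≤ J := by exact_mod_cast hJ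
  have h3 : |ξ| ≤ (J : ℝ) ^ (M + 1) := h2.trans (pow_le_pow_right₀ hJ' (by omega))
  have hyp : Hyp (M + 1 + 2) J c0 (max C0 1) φ :=
    ⟨fun m hm t ht => hder m (by omega) t ht, fun m hm1 hm2 t ht =>
      ⟨(hbd m hm1 (by omega) t ht).1, (hbd m hm1 (by omega) t ht).2.trans (le_max_left _ _)⟩⟩
  have h4 := hmain J L u |ξ| φ hJ hu hL huL hyp h1 h3
  rcases le_or_gt 0 ξ with h | h
  · rw [abs_of_nonneg h] at h4 ⊢
    exact h4
  · rw [abs_of_neg h] at h4 ⊢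
    refine le_trans (le_of_eq ?_) h4
    rw [← norm_sum_neg]
    congr 1
    refine sum_congr rfl fun n _ => ?_
    congr 1; ring

end Pool.Agent.H221R2.FB
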